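import Pool.Agent.SGD.Stmts
import Pool.Agent.Helper73_SGY.Asm

/-!
# Squad SGD, row FIN: the theorem
-/

noncomputable section

namespace Pool.Agent.SGD.H7

open Pool.Agent.SGE Pool.Agent.SGP Pool.Agent.SGY Pool.Agent.SGD

/-- drawings of subgraphs -/
theorem draw_mono {V : Type} {G T : SimpleGraph V} (h : G ≤ T) {f : V → ℝ × ℝ} (hf : Draw T f) :
    Draw G f where
  inj := hf.inj
  cross := fun a b c d h1 h2 h3 => hf.cross a b c d (h h1) (h h2) h3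
  vert := fun v a b h1 h2 => hf.vert v a b (h h1) h2

theorem small_set {n : ℕ} (S : Set (Fin n)) (c : Fin n) (h : S.ncard ≤ 1) :
    ∃ v, ∀ u, u ≠ v → u ∉ S := by
  rw [Set.ncard_le_one (Set.toFinite S)] at h
  by_cases hS : S.Nonempty
  · obtain ⟨v, hv⟩ := hS
    exact ⟨v, fun u hu huS => hu (h u huS v hv)⟩
  · exact ⟨c, fun u _ huS => hS ⟨u, huS⟩⟩

theorem third {n : ℕ} (hn : 3 ≤ n) (u v : Fin n) : ∃ w, w ≠ u ∧ w ≠ v := by
  classical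
  by_contra hcon
  push Not at hcon
  have h1 : (Finset.univ : Finset (Fin n)) ⊆ {u, v} := by
    intro w _
    rw [Finset.mem_insert, Finset.mem_singleton]
    by_cases hw : w = u
    · exact Or.inl hw
    · exact Or.inr (hcon w hw)
  have h2 := Finset.card_le_card h1
  have h3 := Finset.card_le_two (a := u) (b := v)
  rw [Finset.card_univ, Fintype.card_fin] at h2
  omega

theorem o_pp (p q : ℝ × ℝ) : o p p q = 0 := by unfold o; ring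

theorem o_sw (p q r : ℝ × ℝ) : o q p r = - o p q r := by unfold o; ring

theorem xs_left {p q r s : ℝ × ℝ} (h : Xs p q r s) : Xs q p r s := by
  obtain ⟨h1, h2⟩ := h
  refine ⟨?_, ?_⟩
  · rw [o_sw p q r, o_sw p q s]
    linarith
  · rw [mul_comm]
    exact h2

theorem xs_right {p q r s : ℝ × ℝ} (h : Xs p q r s) : Xs p q s r := by
  obtain ⟨h1, h2⟩ := h
  refine ⟨?_, ?_⟩
  · rw [mul_comm]
    exact h1
  · rw [o_sw r s p, o_sw r s q]
    linarith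

/-- the canonical positions -/
def Can (k₁ k₂ : ℕ) (p : Bool × ℕ) : Prop :=
  (p.1 = false ∧ p.2 ≤ k₁ + 1) ∨ (p.1 = true ∧ 1 ≤ p.2 ∧ p.2 ≤ k₂ + 1)

theorem vt_f {α : Type} (X Y : ℕ → α) (i : ℕ) : vt X Y (false, i) = X i := rfl

theorem vt_t {α : Type} (X Y : ℕ → α) (i : ℕ) : vt X Y (true, i) = Y i := rfl

theorem can_inj {α : Type} {k₁ k₂ : ℕ} {e₁ e₂ : ℕ → α}
    (h1 : ∀ i j, i ≤ k₁ + 1 → j ≤ k₁ + 1 → e₁ i = e₁ j → i = j)
    (h2 : ∀ i j, i ≤ k₂ + 1 → j ≤ k₂ + 1 → e₂ i = e₂ j → i = j)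
    (ht : e₁ (k₁ + 1) = e₂ 0)
    (h12 : ∀ i j, i ≤ k₁ → 1 ≤ j → j ≤ k₂ + 1 → e₁ i ≠ e₂ j)
    (p q : Bool × ℕ) (hp : Can k₁ k₂ p) (hq : Can k₁ k₂ q)
    (h : vt e₁ e₂ p = vt e₁ e₂ q) : p = q := by
  have key : ∀ i j, i ≤ k₁ + 1 → 1 ≤ j → j ≤ k₂ + 1 → e₁ i ≠ e₂ j := by
    intro i j hi hj hj' hij
    rcases Nat.lt_or_ge k₁ i with h3 | h3
    · have h4 : i = k₁ + 1 := by omega
      rw [h4, ht] at hij
      have := h2 0 j (by omega) hj' hij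
      omega
    · exact h12 i j h3 hj hj' hij
  obtain ⟨b, i⟩ := p
  obtain ⟨b', j⟩ := q
  rcases hp with ⟨rfl, hi⟩ | ⟨rfl, hi, hi'⟩
  · rcases hq with ⟨rfl, hj⟩ | ⟨rfl, hj, hj'⟩
    · rw [vt_f, vt_f] at h
      rw [h1 i j hi hj h]
    · rw [vt_f, vt_t] at h
      exact absurd h (key i j hi hj hj')
  · rcases hq with ⟨rfl, hj⟩ | ⟨rfl, hj, hj'⟩
    · rw [vt_f, vt_t] at h
      exact absurd h.symm (key j i hj hi hi')
    · rw [vt_t, vt_t] at h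
      rw [h2 i j hi' hj' h]

/-- valid positions -/
def Val (k₁ k₂ : ℕ) (p : Bool × ℕ) : Prop := Can k₁ k₂ p ∨ p = (true, 0)

theorem xe_val {k₁ k₂ : ℕ} {D₁ D₂ : ℕ → ℕ} {S : ℕ → ℕ → Prop} {p q : Bool × ℕ}
    (h : XE k₁ k₂ D₁ D₂ S p q) : Val k₁ k₂ p ∧ Val k₁ k₂ q := by
  cases h with
  | xx h hj hE =>
    exact ⟨Or.inl (Or.inl ⟨rfl, by show _ ≤ _; omega⟩), Or.inl (Or.inl ⟨rfl, hj⟩)⟩
  | @yy i j h hj hE =>
    refine ⟨?_, Or.inl (Or.inr ⟨rfl, by show _ ≤ _; omega, hj⟩)⟩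
    rcases Nat.eq_zero_or_pos i with h0 | h0
    · right
      rw [h0]
    · exact Or.inl (Or.inr ⟨rfl, h0, by show _ ≤ _; omega⟩)
  | xy hi hj hj' hS =>
    exact ⟨Or.inl (Or.inl ⟨rfl, by show _ ≤ _; omega⟩), Or.inl (Or.inr ⟨rfl, hj, hj'⟩)⟩

/-- the map between two systems of chains -/
theorem transfer {n : ℕ} {V : Type} {k₁ k₂ : ℕ} {e₁ e₂ : ℕ → Fin n} {p₁ p₂ : ℕ → V}
    (h1 : ∀ i j, i ≤ k₁ + 1 → j ≤ k₁ + 1 → e₁ i = e₁ j → i = j)
    (h2 : ∀ i j, i ≤ k₂ + 1 → j ≤ k₂ + 1 → e₂ i = e₂ j → i = j)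
    (ht : e₁ (k₁ + 1) = e₂ 0)
    (h12 : ∀ i j, i ≤ k₁ → 1 ≤ j → j ≤ k₂ + 1 → e₁ i ≠ e₂ j)
    (hs : ∀ v, (∃ i, i ≤ k₁ + 1 ∧ e₁ i = v) ∨ ∃ j, 1 ≤ j ∧ j ≤ k₂ + 1 ∧ e₂ j = v)
    (g1 : ∀ i j, i ≤ k₁ + 1 → j ≤ k₁ + 1 → p₁ i = p₁ j → i = j)
    (g2 : ∀ i j, i ≤ k₂ + 1 → j ≤ k₂ + 1 → p₂ i = p₂ j → i = j)
    (gt : p₁ (k₁ + 1) = p₂ 0)
    (g12 : ∀ i j, i ≤ k₁ → 1 ≤ j → j ≤ k₂ + 1 → p₁ i ≠ p₂ j) (R : V → Prop)
    (r1 : ∀ i, i ≤ k₁ + 1 → R (p₁ i)) (r2 : ∀ i, i ≤ k₂ + 1 → R (p₂ i)) :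
    ∃ φ : Fin n → V, Function.Injective φ ∧ (∀ u, R (φ u)) ∧
      ∀ p, Val k₁ k₂ p → φ (vt e₁ e₂ p) = vt p₁ p₂ p := by
  have hq : ∀ v, ∃ p, Can k₁ k₂ p ∧ vt e₁ e₂ p = v := by
    intro v
    rcases hs v with ⟨i, hi, hv⟩ | ⟨j, hj, hj', hv⟩
    · exact ⟨(false, i), Or.inl ⟨rfl, hi⟩, hv⟩
    · exact ⟨(true, j), Or.inr ⟨rfl, hj, hj'⟩, hv⟩
  choose q hqc hqv using hq
  refine ⟨fun v => vt p₁ p₂ (q v), ?_, ?_, ?_⟩
  · intro u v huv
    have h3 := can_inj g1 g2 gt g12 (q u) (q v) (hqc u) (hqc v) huv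
    rw [← hqv u, ← hqv v, h3]
  · intro u
    rcases hqc u with ⟨h3, h4⟩ | ⟨h3, h4, h5⟩
    · have : q u = (false, (q u).2) := Prod.ext h3 rfl
      show R (vt p₁ p₂ (q u))
      rw [this, vt_f]
      exact r1 _ h4
    · have : q u = (true, (q u).2) := Prod.ext h3 rfl
      show R (vt p₁ p₂ (q u))
      rw [this, vt_t]
      exact r2 _ h5
  · intro p hp
    show vt p₁ p₂ (q (vt e₁ e₂ p)) = vt p₁ p₂ p
    rcases hp with hp | hp
    · rw [can_inj h1 h2 ht h12 (q (vt e₁ e₂ p)) p (hqc _) hp (hqv _)]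
    · have h3 : vt e₁ e₂ p = vt e₁ e₂ (false, k₁ + 1) := by
        rw [hp, vt_f, vt_t, ht]
      have h4 : q (vt e₁ e₂ p) = (false, k₁ + 1) :=
        can_inj h1 h2 ht h12 _ _ (hqc _) (Or.inl ⟨rfl, le_refl _⟩) ((hqv _).trans h3)
      rw [h4, hp, vt_f, vt_t, gt]

theorem fin_ (hRlz : RlzStmt) (hNsp : NspStmt) (hTrk : TrkStmt) (hAsm : AsmStmt)
    (hNx2 : Nx2Stmt) (hGnz : GnzStmt) : FinStmt := by
  classical
  intro n G₁ G₂ T hMax hSep hle c X r hTT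
  obtain ⟨fT, hfT⟩ := hMax.1
  by_cases hX : X.ncard ≤ 1
  · obtain ⟨v, hv⟩ := small_set X c hX
    refine Pool.Agent.SGY.H73.thyA n G₁ G₂ ⟨fT, draw_mono hle hfT⟩ v ?_
    refine ⟨fun u => r u.1, ?_, ?_⟩
    · intro u w huw
      exact Subtype.ext (hTT.inj huw)
    · intro x y z t h1 h2 h3
      exact hTT.py x.1 y.1 z.1 t.1 (hv _ x.2) (hv _ y.2) (hv _ z.2) (hv _ t.2) h1 h2 h3
  by_cases hY : {y | y ∉ X ∧ y ≠ c}.ncard ≤ 1
  · obtain ⟨v, hv⟩ := small_set {y | y ∉ X ∧ y ≠ c} c hY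
    have hv' : ∀ u, u ≠ v → u ∈ X ∨ u = c := by
      intro u hu
      by_contra hcon
      push Not at hcon
      exact hv u hu hcon
    refine Pool.Agent.SGY.H73.thyA n G₁ G₂ ⟨fT, draw_mono hle hfT⟩ v ?_
    refine ⟨fun u => r u.1, ?_, ?_⟩
    · intro u w huw
      exact Subtype.ext (hTT.inj huw)
    · intro x y z t h1 h2 h3
      exact hTT.px x.1 y.1 z.1 t.1 (hv' _ x.2) (hv' _ y.2) (hv' _ z.2) (hv' _ t.2) h1 h2 h3
  obtain ⟨k₁, hk₁⟩ : ∃ k₁, X.ncard = k₁ + 1 := ⟨X.ncard - 1, by omega⟩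
  obtain ⟨k₂, hk₂⟩ : ∃ k₂, {y | y ∉ X ∧ y ≠ c}.ncard = k₂ + 1 :=
    ⟨{y | y ∉ X ∧ y ≠ c}.ncard - 1, by omega⟩
  have h1k₁ : 1 ≤ k₁ := by omega
  have h1k₂ : 1 ≤ k₂ := by omega
  have hn : n = k₁ + k₂ + 3 := by
    have h1 := Set.ncard_add_ncard_compl X
    rw [Nat.card_fin] at h1
    have h2 : Xᶜ = insert c {y | y ∉ X ∧ y ≠ c} := by
      ext y
      rw [Set.mem_compl_iff, Set.mem_insert_iff, Set.mem_ofPred_eq]
      constructor
      · intro h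
        by_cases hy : y = c
        · exact Or.inl hy
        · exact Or.inr ⟨h, hy⟩
      · rintro (h | h)
        · rw [h]
          exact hTT.cX
        · exact h.1
    have h3 : c ∉ {y | y ∉ X ∧ y ≠ c} := fun h => h.2 rfl
    rw [h2, Set.ncard_insert_of_notMem h3 (Set.toFinite _), hk₁, hk₂] at h1
    omega
  have h3n : 3 ≤ n := by omega
  obtain ⟨a, b, c', E, F, hNT, hE, hiso, hRel⟩ := hRlz T h3n hMax
  have hnd := hNT.nd
  have hrel_inl : ∀ x, Rel E x → ∃ u, x = Sum.inl u := by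
    intro x hx
    obtain ⟨y, hy⟩ := hx
    rcases x with u | i
    · exact ⟨u, rfl⟩
    · exact absurd hy (hiso i y).1
  have hcard : (Inn (Sum.inl a) (Sum.inl b) (Sum.inl c') E).ncard = k₁ + k₂ := by
    have h1 : Inn (Sum.inl a) (Sum.inl b) (Sum.inl c') E =
        (Sum.inl '' ({a, b, c'} : Set (Fin n))ᶜ : Set (Fin n ⊕ Fin 3)) := by
      ext x
      constructor
      · rintro ⟨hxa, hxb, hxc, hx⟩
        obtain ⟨u, rfl⟩ := hrel_inl x hx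
        refine ⟨u, ?_, rfl⟩
        intro hu
        rcases hu with hu | hu | hu
        · exact hxa (by rw [hu])
        · exact hxb (by rw [hu])
        · exact hxc (by rw [hu])
      · rintro ⟨u, hu, rfl⟩
        refine ⟨?_, ?_, ?_, hRel u⟩
        · intro h
          exact hu (Or.inl (Sum.inl_injective h))
        · intro h
          exact hu (Or.inr (Or.inl (Sum.inl_injective h)))
        · intro h
          exact hu (Or.inr (Or.inr (Sum.inl_injective h)))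
    rw [h1, Set.ncard_image_of_injective _ Sum.inl_injective]
    have h2 := Set.ncard_add_ncard_compl ({a, b, c'} : Set (Fin n))
    rw [Nat.card_fin] at h2
    have h3 : ({a, b, c'} : Set (Fin n)).ncard = 3 := by
      rw [Set.ncard_eq_three]
      refine ⟨a, b, c', ?_, ?_, ?_, rfl⟩
      · intro h
        apply hNT.ab
        rw [h]
      · intro h
        simp [h] at hnd
      · intro h
        simp [h] at hnd
    omega
  have hNS : NoSep (Sum.inl a) E := hNsp T a E hE hiso hSep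
  obtain ⟨e₁, e₂, D₁, D₂, S, he1, he2, het, he12, hes, hS, hadj⟩ := hTrk G₂ c X r k₁ k₂ hTT hk₁ hk₂
  obtain ⟨g, p₁, p₂, hGT, hGX, hpt, hr1, hr2, hp1, hp2, hp12⟩ :=
    hAsm hNT hNS k₁ k₂ h1k₁ h1k₂ hcard D₁ D₂
  -- injectivity of placements
  have hinj : ∀ ψ : Fin n → Fin n ⊕ Fin 3, Function.Injective ψ → (∀ u, Rel E (ψ u)) →
      (∀ x y w, x ≠ y → x ≠ w → y ≠ w → o (g (ψ x)) (g (ψ y)) (g (ψ w)) ≠ 0) ∧
      Function.Injective (fun u => g (ψ u)) := by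
    intro ψ hψ hψR
    have h1 : ∀ x y w, x ≠ y → x ≠ w → y ≠ w → o (g (ψ x)) (g (ψ y)) (g (ψ w)) ≠ 0 := by
      intro x y w hxy hxw hyw
      exact hGT.gp _ _ _ (hψR x) (hψR y) (hψR w) (fun h => hxy (hψ h)) (fun h => hxw (hψ h))
        (fun h => hyw (hψ h))
    refine ⟨h1, ?_⟩
    intro u v huv
    by_contra hne
    obtain ⟨w, hwu, hwv⟩ := third h3n u v
    refine h1 u v w hne (Ne.symm hwu) (Ne.symm hwv) ?_
    have huv' : g (ψ u) = g (ψ v) := huv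
    rw [huv', o_pp]
  obtain ⟨hgp1, hinj1⟩ := hinj (fun u => Sum.inl u) Sum.inl_injective hRel
  refine ⟨Finset.univ.image (fun u : Fin n => g (Sum.inl u)), ?_, ?_, ?_⟩
  · rw [Finset.card_image_of_injective _ hinj1, Finset.card_univ, Fintype.card_fin]
  · refine ⟨fun u => g (Sum.inl u), ?_, fun u => Finset.mem_image_of_mem _ (Finset.mem_univ u)⟩
    obtain ⟨z, hz⟩ := hGnz (fun u : Fin n => g (Sum.inl u)) hinj1
    refine Pool.Agent.SGP.H19.drw Pool.Agent.SGE.H99.seg z hgp1 hz ?_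
    intro x y w t hxy hwt
    exact Pool.Agent.SGY.H95.fpl hNT hGT _ _ _ _ ((hE x y).mpr (hle hxy)) ((hE w t).mpr (hle hwt))
  · obtain ⟨φ, hφ, hφR, hφp⟩ := transfer he1 he2 het he12 hes hp1 hp2 hpt hp12 (Rel E) hr1 hr2
    obtain ⟨hgp2, hinj2⟩ := hinj φ hφ hφR
    refine ⟨fun u => g (φ u), ?_, ?_⟩
    · obtain ⟨z, hz⟩ := hGnz (fun u : Fin n => g (φ u)) hinj2
      refine Pool.Agent.SGP.H19.drw Pool.Agent.SGE.H99.seg z hgp2 hz ?_
      intro x y w t hxy hwt hX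
      obtain ⟨p, q, hpq, hpq'⟩ := hadj x y hxy
      obtain ⟨p', q', hpq2, hpq2'⟩ := hadj w t hwt
      have hval : ∀ s, Val k₁ k₂ s → vt (fun i => g (p₁ i)) (fun j => g (p₂ j)) s =
          g (φ (vt e₁ e₂ s)) := by
        intro s hs
        rw [hφp s hs]
        unfold vt
        split_ifs <;> rfl
      have key := hNx2 k₁ k₂ D₁ D₂ S _ _ hGX hS p q p' q' hpq hpq2
      rw [hval p (xe_val hpq).1, hval q (xe_val hpq).2, hval p' (xe_val hpq2).1,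
        hval q' (xe_val hpq2).2] at key
      rcases hpq' with ⟨h1, h2⟩ | ⟨h1, h2⟩
      · rcases hpq2' with ⟨h3, h4⟩ | ⟨h3, h4⟩
        · rw [h1, h2, h3, h4] at key
          exact key hX
        · rw [h1, h2, h3, h4] at key
          exact key (xs_right hX)
      · rcases hpq2' with ⟨h3, h4⟩ | ⟨h3, h4⟩
        · rw [h1, h2, h3, h4] at key
          exact key (xs_left hX)
        · rw [h1, h2, h3, h4] at key
          exact key (xs_left (xs_right hX))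
    · intro u
      obtain ⟨w, hw⟩ := hrel_inl (φ u) (hφR u)
      rw [Finset.mem_image]
      refine ⟨w, Finset.mem_univ w, ?_⟩
      show g (Sum.inl w) = g (φ u)
      rw [hw]

end Pool.Agent.SGD.H7
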